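import Pool.Agent.Lib.MP_725208_co.Final

/-!
# MP_725208_co: majority 3-colourings of `k`-diregular digraphs, `k ≥ 108` and even `k ≥ 102`
-/

namespace Pool.Agent.Results.MP_725208_co.LargeDegree

theorem result (V : Type) [Fintype V] [DecidableEq V] (A : V → V → Prop) [DecidableRel A]
    (k : ℕ) (hk : 108 ≤ k ∨ (Even k ∧ 102 ≤ k)) (hloop : ∀ v, ¬ A v v)
    (hout : ∀ v, (Finset.univ.filter (fun u => A v u)).card = k)
    (hin : ∀ v, (Finset.univ.filter (fun u => A u v)).card = k) :
    ∃ f : V → Fin 3, ∀ v, 2 * (Finset.univ.filter (fun u => A v u ∧ f u = f v)).card ≤ k :=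
  Pool.Agent.Lib.MP_725208_co.majority A hk hloop hout hin

end Pool.Agent.Results.MP_725208_co.LargeDegree
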